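import Pool.Agent.H31.EH.Targets
import Pool.Agent.H31.EST.RIP

/-!
# Row MAS of ehf_modules (MP_e21eee_nt): the mass of the stars, of the grids with many stars, and
projections
-/

set_option autoImplicit false

open Finset MeasureTheory

namespace Pool.Agent.H42.EH

open Pool.Agent.H24.CL Pool.Agent.H24.LV Pool.Agent.H84.LVP Pool.Agent.H26.ES Pool.Agent.H31.EST
  Pool.Agent.H31.EH

/-- projections of stars -/
theorem mas_proj {k : ℕ} (hMP : T_MP) (hCO : L_CO) (hTR : T_TRP) {Q : Finset ℕ} {V : Set (X k)}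
    {Ge : ℕ → Set (X k)} {Gd : ℕ → ℕ → Set (X k)} {P m τ Ω : ℝ} (h : Dat k Q V Ge Gd P m τ Ω)
    {S : Finset ℕ} (hS : S ⊆ Q) {S' : Finset ℕ} (hS' : S' ⊆ S) {T : X k → ℕ → Prop}
    (hT : ∀ x, MeasurableSet {b : X k | T b x}) :
    mass k (DS S) (fun b x => StarP S V Gd b x ∧
      T (phi (DS S / DS S') (x % (DS S / DS S')) b) (x / (DS S / DS S'))) ≤ mass k (DS S') T := by
  have hd : SDatP k S V Ge Gd P m τ Ω := SDatP_mono h.dat hS
  have e : S' ∪ (S \ S') = S := Finset.union_sdiff_of_subset hS'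
  have h1 := trP_it hMP hCO hTR (S' := S') (V := V) (Ge := Ge) (Gd := Gd) (P := P) (m := m)
    (τ := τ) (Ω := Ω) (T := T) hT (S \ S') Finset.disjoint_sdiff (by rw [e]; exact hd)
  rwa [e] at h1

/-- the mass of the stars -/
theorem mas_star {k : ℕ} (hMP : T_MP) (hCO : L_CO) (hTR : T_TRP) {Q : Finset ℕ} {V : Set (X k)}
    {Ge : ℕ → Set (X k)} {Gd : ℕ → ℕ → Set (X k)} {P m τ Ω : ℝ} (h : Dat k Q V Ge Gd P m τ Ω)
    {S : Finset ℕ} (hS : S ⊆ Q) : mass k (DS S) (fun b x => StarP S V Gd b x) ≤ Ω := by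
  have h1 := mas_proj hMP hCO hTR h hS (Finset.empty_subset S) (T := fun b _ => b ∈ V)
    (fun _ => h.dat.mV)
  have e0 : DS ∅ = 1 := by
    unfold DS
    exact Finset.prod_empty
  have e1 : mass k (DS ∅) (fun (b : X k) (_ : ℕ) => b ∈ V) = volume.real V := by
    unfold mass
    rw [e0]
    simp
  refine le_trans (mass_mono (fun x hx b hb => ⟨hb, ?_⟩)) (le_trans h1 (by rw [e1]; exact h.mOm))
  rw [e0, Nat.div_one, Nat.mod_eq_of_lt hx]
  exact hb.1

/-- the integral of the density of the stars -/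
theorem int_den {k : ℕ} {S : Finset ℕ} {V : Set (X k)} {Gd : ℕ → ℕ → Set (X k)}
    (hm : ∀ x, MeasurableSet {b : X k | StarP S V Gd b x}) :
    ∫ b : X k, den S V Gd b = (1 / (DS S : ℝ)) * ∑ x ∈ range (DS S),
      volume.real {b : X k | StarP S V Gd b x} := by
  classical
  have e1 : ∀ b : X k, den S V Gd b = (∑ x ∈ range (DS S),
      ({b : X k | StarP S V Gd b x}).indicator (fun _ => (1 : ℝ)) b) / (DS S : ℝ) := by
    intro b
    unfold den
    rw [Finset.card_filter]
    push_cast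
    refine congrArg (fun t : ℝ => t / (DS S : ℝ)) (Finset.sum_congr rfl (fun x _ => ?_))
    by_cases hb : StarP S V Gd b x
    · rw [Set.indicator_of_mem (show b ∈ {b : X k | StarP S V Gd b x} from hb), if_pos hb]
    · rw [Set.indicator_of_notMem (show b ∉ {b : X k | StarP S V Gd b x} from hb), if_neg hb]
  have e2 : (fun b : X k => den S V Gd b) = fun b : X k => (∑ x ∈ range (DS S),
      ({b : X k | StarP S V Gd b x}).indicator (fun _ => (1 : ℝ)) b) / (DS S : ℝ) := by
    funext b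
    exact e1 b
  rw [e2, integral_div, integral_finsetSum]
  · rw [div_eq_inv_mul, one_div]
    congr 1
    refine Finset.sum_congr rfl (fun x _ => ?_)
    rw [integral_indicator (hm x)]
    simp
  · intro x _
    exact (integrable_const (1 : ℝ)).indicator (hm x)

theorem pf_MAS (hMP : T_MP) (hCO : L_CO) (hTR : T_TRP) (hMEA : T_MEA) : T_MAS := by
  intro k Q V Ge Gd P m τ Ω h S hS
  have hd : SDatP k S V Ge Gd P m τ Ω := SDatP_mono h.dat hS
  have hpr : ∀ p ∈ S, p.Prime := fun p hp => (hd.pr p hp).1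
  refine ⟨mas_star hMP hCO hTR h hS, ?_, ?_⟩
  · intro kap hkap
    have hme := hMEA k S S V Ge Gd P m τ Ω (by rw [Finset.union_self]; exact hd)
    obtain ⟨m1, m2, _, _, _, _, _, _, bd, _⟩ := hme
    have hint : Integrable (fun b : X k => den S V Gd b) volume := by
      refine Integrable.of_bound m2.aestronglyMeasurable 1 (Filter.Eventually.of_forall ?_)
      intro b
      rw [Real.norm_eq_abs, abs_of_nonneg (bd b).1]
      exact (bd b).2
    have hmk : kap * volume.real {c : X k | kap ≤ den S V Gd c} ≤ ∫ b : X k, den S V Gd b :=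
      mul_meas_ge_le_integral_of_nonneg (Filter.Eventually.of_forall fun b => (bd b).1) hint kap
    rw [int_den m1] at hmk
    have hms := mas_star hMP hCO hTR h hS
    unfold mass at hms
    have hD : (0 : ℝ) ≤ (DS S : ℝ) ^ (KN k - k) := by positivity
    rw [le_div_iff₀ hkap]
    calc (DS S : ℝ) ^ (KN k - k) * volume.real {c : X k | kap ≤ den S V Gd c} * kap
        = (DS S : ℝ) ^ (KN k - k) * (kap * volume.real {c : X k | kap ≤ den S V Gd c}) := by ring
      _ ≤ (DS S : ℝ) ^ (KN k - k) * ((1 / (DS S : ℝ)) * ∑ x ∈ range (DS S),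
          volume.real {b : X k | StarP S V Gd b x}) := mul_le_mul_of_nonneg_left hmk hD
      _ ≤ Ω := hms
  · intro S' hS' T hT
    exact mas_proj hMP hCO hTR h hS hS' hT

end Pool.Agent.H42.EH
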